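import Pool.Agent.Lib_helper86.CM.Union

set_option autoImplicit false
set_option linter.unusedSectionVars false

namespace Pool.Agent.CM

open Finset

variable {G : Type} [CommGroup G] [Fintype G] [DecidableEq G]

/-- all CM types -/
noncomputable def allGCM (c : G) : Finset (Finset G) :=
  open scoped Classical in Finset.univ.filter fun Φ => GCM c Φ

/-- the degenerate ones -/
noncomputable def degGCM (c : G) : Finset (Finset G) :=
  open scoped Classical in Finset.univ.filter fun Φ => GCM c Φ ∧ ¬ GND c Φ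

theorem card_allGCM (c : G) (hc : c * c = 1) (hc1 : c ≠ 1) :
    (allGCM c).card = 2 ^ (Fintype.card G / 2) := by
  classical
  -- one CM type
  obtain ⟨Y, hY⟩ : ∃ Y : Finset G, GCM c Y := by
    obtain ⟨χ, hχ⟩ := CommGroup.exists_apply_ne_one_of_hasEnoughRootsOfUnity G ℂ hc1
    have h1 : χ c = -1 := by
      have h2 : χ c * χ c = 1 := by rw [← map_mul, hc, map_one]
      have h3 := congrArg (fun u : ℂˣ => (u : ℂ)) h2
      simp only [Units.val_mul, Units.val_one] at h3
      rcases mul_self_eq_one_iff.1 h3 with h4 | h4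
      · exact absurd (Units.ext h4) hχ
      · ext; rw [h4]; simp
    -- use the sign of real part / imaginary part
    refine ⟨Finset.univ.filter fun g => 0 < ((χ g : ℂˣ) : ℂ).re ∨
      (((χ g : ℂˣ) : ℂ).re = 0 ∧ 0 < ((χ g : ℂˣ) : ℂ).im), fun g => ?_⟩
    simp only [mem_filter, mem_univ, true_and]
    have h2 : ((χ (c * g) : ℂˣ) : ℂ) = - ((χ g : ℂˣ) : ℂ) := by
      rw [map_mul, h1]; simp
    rw [h2]
    simp only [Complex.neg_re, Complex.neg_im]
    have h3 : ((χ g : ℂˣ) : ℂ) ≠ 0 := Units.ne_zero _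
    have h4 : ¬ (((χ g : ℂˣ) : ℂ).re = 0 ∧ ((χ g : ℂˣ) : ℂ).im = 0) := by
      rintro ⟨h5, h6⟩
      exact h3 (Complex.ext h5 h6)
    generalize ((χ g : ℂˣ) : ℂ).re = x at *
    generalize ((χ g : ℂˣ) : ℂ).im = y at *
    constructor
    · rintro (h | ⟨h, h'⟩) (h2 | ⟨h2, h2'⟩) <;> linarith
    · intro h
      push Not at h
      rcases lt_trichotomy x 0 with hx | hx | hx
      · linarith [h.1]
      · right
        refine ⟨hx, ?_⟩
        have := h.2 (by linarith)
        rcases lt_or_eq_of_le this with h5 | h5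
        · linarith
        · exact absurd ⟨hx, by linarith⟩ h4
      · left; exact hx
  have hYc := gcm_card hY hc
  have h1 : (allGCM c).card = Y.powerset.card := by
    unfold allGCM
    refine card_bij' (fun Φ _ => Φ ∩ Y)
      (fun S _ => S ∪ (Finset.univ.filter fun g => g ∉ Y ∧ c * g ∉ S)) ?_ ?_ ?_ ?_
    · intro Φ _
      exact mem_powerset.2 inter_subset_right
    · intro S hS
      rw [mem_powerset] at hS
      rw [mem_filter]
      refine ⟨mem_univ _, fun g => ?_⟩
      simp only [mem_union, mem_filter, mem_univ, true_and]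
      have e1 : c * (c * g) = g := by rw [← mul_assoc, hc, one_mul]
      rw [e1]
      by_cases hg : g ∈ Y
      · have h2 := (hY g).1 hg
        have h3 : c * g ∉ S := fun h => h2 (hS h)
        simp only [hg, not_true_eq_false, false_and, or_false, h3, h2, not_false_eq_true, true_and,
          false_or, not_not]
      · have h2 : c * g ∈ Y := by
          by_contra h'
          exact hg ((hY g).2 h')
        have h3 : g ∉ S := fun h => hg (hS h)
        simp only [h3, hg, not_false_eq_true, true_and, false_or, h2, not_true_eq_false, false_and,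
          or_false]
    · intro Φ hΦ
      rw [mem_filter] at hΦ
      have hΦ := hΦ.2
      ext g
      simp only [mem_union, mem_inter, mem_filter, mem_univ, true_and]
      by_cases hg : g ∈ Y
      · simp [hg]
      · have h2 : c * g ∈ Y := by
          by_contra h'
          exact hg ((hY g).2 h')
        simp only [hg, and_false, false_or, not_false_eq_true, true_and, h2, and_true]
        exact (hΦ g).symm
    · intro S hS
      rw [mem_powerset] at hS
      ext g
      simp only [mem_inter, mem_union, mem_filter, mem_univ, true_and]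
      constructor
      · rintro ⟨h | ⟨h, _⟩, h2⟩
        · exact h
        · exact absurd h2 h
      · intro h
        exact ⟨Or.inl h, hS h⟩
  rw [h1, card_powerset]
  congr 1
  omega

theorem degGCM_subset (c : G) (hc : c * c = 1) [Fintype (G →* ℂˣ)] :
    degGCM c ⊆ (Finset.univ.filter fun χ : G →* ℂˣ => χ c = -1).biUnion (bad c) := by
  classical
  intro Φ hΦ
  unfold degGCM at hΦ
  rw [mem_filter] at hΦ
  obtain ⟨_, h1, h2⟩ := hΦ
  rw [mem_biUnion]
  by_contra h3
  apply h2
  refine gnd_of_char c hc Φ h1 fun χ hχ h4 => h3 ⟨χ, mem_filter.2 ⟨mem_univ _, hχ⟩, ?_⟩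
  unfold bad
  rw [mem_filter]
  exact ⟨mem_univ _, h1, h4⟩

/-- real form of the bound for one character -/
theorem bad_real {B k h N : ℕ} (hk : B * (2 ^ h) ^ k ≤ (h.choose (h / 2)) ^ k * 2 ^ N) :
    (B : ℝ) * √(h + 1) ^ k ≤ 2 ^ N := by
  have h1 : ((h.choose (h / 2) : ℕ) : ℝ) * √(h + 1) ≤ 2 ^ h := by
    have h2 := middle_sq_le h
    have h3 : (((h.choose (h / 2) : ℕ) : ℝ) * √(h + 1)) ^ 2 ≤ ((2 : ℝ) ^ h) ^ 2 := by
      rw [mul_pow, Real.sq_sqrt (by positivity), ← pow_mul, mul_comm h 2, pow_mul]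
      norm_num
      exact_mod_cast h2
    exact (sq_le_sq₀ (by positivity) (by positivity)).1 h3
  have h2 : ((B : ℝ) * √(h + 1) ^ k) * ((2 : ℝ) ^ h) ^ k ≤ 2 ^ N * ((2 : ℝ) ^ h) ^ k := by
    have h3 : (B : ℝ) * ((2 : ℝ) ^ h) ^ k ≤ ((h.choose (h / 2) : ℕ) : ℝ) ^ k * 2 ^ N := by
      exact_mod_cast hk
    calc ((B : ℝ) * √(h + 1) ^ k) * ((2 : ℝ) ^ h) ^ k
        = ((B : ℝ) * ((2 : ℝ) ^ h) ^ k) * √(h + 1) ^ k := by ring
      _ ≤ (((h.choose (h / 2) : ℕ) : ℝ) ^ k * 2 ^ N) * √(h + 1) ^ k :=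
          mul_le_mul_of_nonneg_right h3 (by positivity)
      _ = (((h.choose (h / 2) : ℕ) : ℝ) * √(h + 1)) ^ k * 2 ^ N := by ring
      _ ≤ ((2 : ℝ) ^ h) ^ k * 2 ^ N :=
          mul_le_mul_of_nonneg_right (pow_le_pow_left₀ (by positivity) h1 k) (by positivity)
      _ = _ := by ring
  exact le_of_mul_le_mul_right h2 (by positivity)

theorem bad_bound (c : G) (hc : c * c = 1) (χ : G →* ℂˣ) (hχ : χ c = -1) (g : ℕ)
    (hg : Fintype.card G = 2 * g) :
    ((∀ x, χ x ^ 12 = 1) ∧ ((bad c χ).card : ℝ) * √g ≤ 2 * 2 ^ g) ∨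
      ((bad c χ).card : ℝ) * (g * √g) ≤ 216 * 2 ^ g := by
  obtain ⟨d, h, hdh, hd, hh, hord, hk⟩ := bad_count c hc χ hχ
  rw [hg] at hdh hk
  have e : 2 * g / 2 = g := by omega
  rw [e] at hk
  by_cases hφ : 4 ≤ d.totient
  · right
    have h1 := bad_real (hk _ le_rfl)
    have h2 := arith_ineq g d h hdh hh hd hφ
    have h3 : (g * √g) ≤ 216 * √(h + 1) ^ d.totient := by
      have h4 : ((g : ℝ) * √g) ^ 2 ≤ (216 * √(h + 1) ^ d.totient) ^ 2 := by
        rw [mul_pow, Real.sq_sqrt (by positivity), mul_pow, ← pow_mul, mul_comm d.totient 2,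
          pow_mul, Real.sq_sqrt (by positivity)]
        have : ((g : ℝ)) ^ 3 ≤ 46656 * ((h : ℝ) + 1) ^ d.totient := by exact_mod_cast h2
        calc (g : ℝ) ^ 2 * g = (g : ℝ) ^ 3 := by ring
          _ ≤ _ := this
          _ = _ := by norm_num
      exact (sq_le_sq₀ (by positivity) (by positivity)).1 h4
    calc ((bad c χ).card : ℝ) * (g * √g)
        ≤ ((bad c χ).card : ℝ) * (216 * √(h + 1) ^ d.totient) :=
          mul_le_mul_of_nonneg_left h3 (by positivity)
      _ = 216 * (((bad c χ).card : ℝ) * √(h + 1) ^ d.totient) := by ring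
      _ ≤ _ := mul_le_mul_of_nonneg_left h1 (by norm_num)
  · left
    have h12 : d ∣ 12 ∧ d ≤ 6 := by
      have h1 := (le_two_totient_sq d hd).1
      have h2 : d.totient ≤ 3 := by omega
      have h3 : d ≤ 18 := by
        calc d ≤ 2 * d.totient ^ 2 := h1
          _ ≤ 2 * 3 ^ 2 := Nat.mul_le_mul_left _ (Nat.pow_le_pow_left h2 2)
          _ = 18 := by norm_num
      revert h2
      clear h1 hk hord hdh hφ
      interval_cases d <;> decide
    constructor
    · intro x
      obtain ⟨r, hr⟩ := h12.1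
      rw [hr, pow_mul, hord, one_pow]
    · have hφ1 : 1 ≤ d.totient := Nat.totient_pos.2 hd
      have h1 := bad_real (hk 1 hφ1)
      rw [pow_one] at h1
      have h2 : √(g : ℝ) ≤ 2 * √(h + 1) := by
        have h3 : (g : ℝ) ≤ 4 * (h + 1) := by
          have : 2 * g ≤ 6 * h := by rw [← hdh]; exact Nat.mul_le_mul_right _ h12.2
          have : g ≤ 4 * (h + 1) := by omega
          exact_mod_cast this
        calc √(g : ℝ) ≤ √(4 * (h + 1)) := Real.sqrt_le_sqrt h3
          _ = 2 * √(h + 1) := by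
            rw [Real.sqrt_mul (by norm_num)]
            congr 1
            rw [show (4 : ℝ) = 2 ^ 2 by norm_num]
            exact Real.sqrt_sq (by norm_num)
      calc ((bad c χ).card : ℝ) * √g ≤ ((bad c χ).card : ℝ) * (2 * √(h + 1)) :=
            mul_le_mul_of_nonneg_left h2 (by positivity)
        _ = 2 * (((bad c χ).card : ℝ) * √(h + 1)) := by ring
        _ ≤ _ := mul_le_mul_of_nonneg_left h1 (by norm_num)

/-- Almost all CM types of an abelian group with few elements of order dividing `12` are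
nondegenerate. -/
theorem almost_all (c : G) (hc : c * c = 1) (g : ℕ)
    (hg : Fintype.card G = 2 * g) :
    ((degGCM c).card : ℝ) * √g ≤ 434 * (Nat.card {x : G // x ^ 12 = 1}) * 2 ^ g := by
  classical
  obtain ⟨e⟩ := CommGroup.monoidHom_mulEquiv_of_hasEnoughRootsOfUnity G ℂ
  let _ : Fintype (G →* ℂˣ) := Fintype.ofEquiv G e.toEquiv.symm
  have hcardχ : Fintype.card (G →* ℂˣ) = 2 * g := by
    rw [← hg]; exact Fintype.card_congr e.toEquiv
  have hcard12 : (Finset.univ.filter fun χ : G →* ℂˣ => χ ^ 12 = 1).card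
      = Nat.card {x : G // x ^ 12 = 1} := by
    rw [Nat.card_eq_fintype_card, Fintype.card_subtype]
    refine card_bij (fun χ _ => e χ) ?_ ?_ ?_
    · intro χ hχ
      rw [mem_filter] at hχ ⊢
      refine ⟨mem_univ _, ?_⟩
      rw [← map_pow, hχ.2, map_one]
    · intro a _ b _ h
      exact e.injective h
    · intro x hx
      rw [mem_filter] at hx
      refine ⟨e.symm x, ?_, e.apply_symm_apply x⟩
      rw [mem_filter]
      refine ⟨mem_univ _, ?_⟩
      rw [← map_pow, hx.2, map_one]
  set t := Nat.card {x : G // x ^ 12 = 1} with ht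
  have ht1 : 1 ≤ t := by
    rw [ht]
    have : Nonempty {x : G // x ^ 12 = 1} := ⟨⟨1, one_pow _⟩⟩
    exact Nat.card_pos
  have hg0 : 0 < g := by
    have : 0 < Fintype.card G := Fintype.card_pos
    omega
  have hsub := card_le_card (degGCM_subset c hc)
  have h1 : ((degGCM c).card : ℝ) ≤ ∑ χ ∈ Finset.univ.filter (fun χ : G →* ℂˣ => χ c = -1),
      ((bad c χ).card : ℝ) := by
    have := hsub.trans card_biUnion_le
    exact_mod_cast this
  have hsg : 0 < √(g : ℝ) := Real.sqrt_pos.2 (by exact_mod_cast hg0)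
  have h2 : ∀ χ ∈ Finset.univ.filter (fun χ : G →* ℂˣ => χ c = -1),
      ((bad c χ).card : ℝ) * √g ≤ (if χ ^ 12 = 1 then 2 * 2 ^ g else 0) + 216 * 2 ^ g / g := by
    intro χ hχ
    rw [mem_filter] at hχ
    have hgr : (0 : ℝ) < g := by exact_mod_cast hg0
    rcases bad_bound c hc χ hχ.2 g hg with ⟨h3, h4⟩ | h3
    · have h5 : χ ^ 12 = 1 := by
        ext x
        rw [MonoidHom.pow_apply, h3 x]
        rfl
      rw [if_pos h5]
      have : (0 : ℝ) ≤ 216 * 2 ^ g / g := by positivity
      linarith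
    · have h4 : ((bad c χ).card : ℝ) * √g ≤ 216 * 2 ^ g / g := by
        rw [le_div_iff₀ hgr]
        calc ((bad c χ).card : ℝ) * √g * g = ((bad c χ).card : ℝ) * (g * √g) := by ring
          _ ≤ _ := h3
      have : (0 : ℝ) ≤ (if χ ^ 12 = 1 then 2 * 2 ^ g else 0) := by
        split_ifs <;> positivity
      linarith
  calc ((degGCM c).card : ℝ) * √g
      ≤ (∑ χ ∈ Finset.univ.filter (fun χ : G →* ℂˣ => χ c = -1), ((bad c χ).card : ℝ)) * √g :=
        mul_le_mul_of_nonneg_right h1 hsg.le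
    _ = ∑ χ ∈ Finset.univ.filter (fun χ : G →* ℂˣ => χ c = -1), ((bad c χ).card : ℝ) * √g := by
        rw [sum_mul]
    _ ≤ ∑ χ ∈ Finset.univ.filter (fun χ : G →* ℂˣ => χ c = -1),
        ((if χ ^ 12 = 1 then (2 : ℝ) * 2 ^ g else 0) + 216 * 2 ^ g / g) := sum_le_sum h2
    _ ≤ ∑ χ : G →* ℂˣ, ((if χ ^ 12 = 1 then (2 : ℝ) * 2 ^ g else 0) + 216 * 2 ^ g / g) := by
        refine sum_le_sum_of_subset_of_nonneg (filter_subset _ _) fun χ _ _ => ?_
        have : (0 : ℝ) ≤ (if χ ^ 12 = 1 then 2 * 2 ^ g else 0) := by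
          split_ifs <;> positivity
        positivity
    _ = t * (2 * 2 ^ g) + (2 * g) * (216 * 2 ^ g / g) := by
        rw [sum_add_distrib, ← sum_filter, sum_const, sum_const, hcard12, card_univ, hcardχ]
        simp only [nsmul_eq_mul]
        push_cast
        ring
    _ = t * (2 * 2 ^ g) + 432 * 2 ^ g := by
        have hgr : (g : ℝ) ≠ 0 := by exact_mod_cast hg0.ne'
        field_simp
        ring
    _ ≤ 434 * t * 2 ^ g := by
        have h5 : (1 : ℝ) ≤ t := by exact_mod_cast ht1
        have h6 : (0 : ℝ) < 2 ^ g := by positivity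
        nlinarith

end Pool.Agent.CM
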