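import Pool.Agent.Lib_helper86.CM.Grp

set_option autoImplicit false

namespace Pool.Agent.CM

/-- Character criterion for nondegeneracy (abelian case). -/
theorem gnd_of_char {G : Type} [CommGroup G] [Fintype G] (c : G) (hc : c * c = 1)
    (Φ : Finset G) (_hΦ : GCM c Φ)
    (h : ∀ χ : G →* ℂˣ, χ c = -1 → ∑ g ∈ Φ, ((χ g : ℂˣ) : ℂ) ≠ 0) : GND c Φ := by
  classical
  intro n hn
  let ν : G → ℂ := fun g => (n g : ℂ) - n (c * g)
  have hν : ∀ τ, ∑ g ∈ Φ, ν (τ * g) = 0 := by
    intro τ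
    simp only [ν, Finset.sum_sub_distrib]
    have := congrArg (Int.cast : ℤ → ℂ) (hn τ)
    push_cast at this
    rw [this, sub_eq_zero]
    refine Finset.sum_congr rfl fun g _ => ?_
    rw [mul_left_comm]
  have key : ∀ χ : G →* ℂˣ, ∑ τ, (((χ τ)⁻¹ : ℂˣ) : ℂ) * ν τ = 0 := by
    intro χ
    have hcc : χ c * χ c = 1 := by rw [← map_mul, hc, map_one]
    have hc' : ((χ c : ℂˣ) : ℂ) = 1 ∨ ((χ c : ℂˣ) : ℂ) = -1 := by
      have h1 := congrArg (fun u : ℂˣ => (u : ℂ)) hcc
      simp only [Units.val_mul, Units.val_one] at h1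
      exact mul_self_eq_one_iff.1 h1
    rcases hc' with h1 | h1
    · -- even
      have h2 : ∑ τ, (((χ τ)⁻¹ : ℂˣ) : ℂ) * (n (c * τ) : ℂ) = ∑ τ, (((χ τ)⁻¹ : ℂˣ) : ℂ) * n τ := by
        rw [← Equiv.sum_comp (Equiv.mulLeft c) (fun τ => (((χ τ)⁻¹ : ℂˣ) : ℂ) * (n τ : ℂ))]
        refine Finset.sum_congr rfl fun τ _ => ?_
        simp only [Equiv.coe_mulLeft, map_mul, mul_inv, Units.val_mul]
        have h3 : (((χ c)⁻¹ : ℂˣ) : ℂ) = 1 := by
          rw [Units.val_inv_eq_inv_val, h1, inv_one]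
        rw [h3, one_mul]
      simp only [ν, mul_sub, Finset.sum_sub_distrib]
      rw [h2, sub_self]
    · have hodd : χ c = -1 := by
        ext
        rw [h1]
        simp
      have h2 := h χ hodd
      have h5 : ∀ g, ((χ g : ℂˣ) : ℂ) * ∑ τ, (((χ τ)⁻¹ : ℂˣ) : ℂ) * ν τ
          = ∑ τ, (((χ τ)⁻¹ : ℂˣ) : ℂ) * ν (τ * g) := by
        intro g
        rw [Finset.mul_sum, ← Equiv.sum_comp (Equiv.mulRight g)]
        refine Finset.sum_congr rfl fun τ _ => ?_
        simp only [Equiv.coe_mulRight, map_mul, mul_inv, Units.val_mul]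
        have h5 : ((χ g : ℂˣ) : ℂ) * (((χ g)⁻¹ : ℂˣ) : ℂ) = 1 := by
          rw [← Units.val_mul, mul_inv_cancel, Units.val_one]
        linear_combination (((χ τ)⁻¹ : ℂˣ) : ℂ) * ν (τ * g) * h5
      have h3 : (∑ g ∈ Φ, ((χ g : ℂˣ) : ℂ)) * ∑ τ, (((χ τ)⁻¹ : ℂˣ) : ℂ) * ν τ = 0 := by
        rw [Finset.sum_mul]
        simp only [h5]
        rw [Finset.sum_comm]
        simp only [← Finset.mul_sum, hν, mul_zero, Finset.sum_const_zero]
      exact (mul_eq_zero.1 h3).resolve_left h2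
  -- Fourier inversion
  have hν0 : ∀ g, ν g = 0 := by
    intro g
    have h1 : ∑ ψ : AddChar (Additive G) ℂ, ψ (Additive.ofMul g) *
        ∑ τ : G, ψ (-(Additive.ofMul τ)) * ν τ = 0 := by
      refine Finset.sum_eq_zero fun ψ _ => ?_
      let χ0 : G →* ℂ :=
        { toFun := fun x => ψ (Additive.ofMul x)
          map_one' := (by simp)
          map_mul' := (by intro x y; rw [ofMul_mul, AddChar.map_add_eq_mul]) }
      have := key χ0.toHomUnits
      have h2 : ∀ τ : G, (((χ0.toHomUnits τ)⁻¹ : ℂˣ) : ℂ) = ψ (-(Additive.ofMul τ)) := by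
        intro τ
        rw [Units.val_inv_eq_inv_val, AddChar.map_neg_eq_inv]
        rfl
      simp only [h2] at this
      rw [this, mul_zero]
    have h2 : ∑ ψ : AddChar (Additive G) ℂ, ψ (Additive.ofMul g) *
        ∑ τ : G, ψ (-(Additive.ofMul τ)) * ν τ = (Fintype.card G : ℂ) * ν g := by
      simp only [Finset.mul_sum]
      rw [Finset.sum_comm]
      have h3 : ∀ τ : G, ∑ ψ : AddChar (Additive G) ℂ, ψ (Additive.ofMul g) *
          (ψ (-(Additive.ofMul τ)) * ν τ)
          = (if Additive.ofMul g + -(Additive.ofMul τ) = 0 then (Fintype.card (Additive G) : ℂ)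
            else 0) * ν τ := by
        intro τ
        rw [← AddChar.sum_apply_eq_ite, Finset.sum_mul]
        refine Finset.sum_congr rfl fun ψ _ => ?_
        rw [AddChar.map_add_eq_mul]
        ring
      simp only [h3]
      rw [Finset.sum_eq_single g]
      · simp
      · intro τ _ hτ
        rw [if_neg, zero_mul]
        intro h4
        apply hτ
        have h5 := add_neg_eq_zero.1 h4
        exact (Additive.ofMul.injective h5).symm
      · intro h; exact absurd (Finset.mem_univ _) h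
    rw [h2] at h1
    exact (mul_eq_zero.1 h1).resolve_left (Nat.cast_ne_zero.2 Fintype.card_ne_zero)
  intro g
  have := hν0 g
  simp only [ν, sub_eq_zero] at this
  exact_mod_cast this.symm

end Pool.Agent.CM
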