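import Pool.Agent.Lib_helper86.CM.Grp

set_option autoImplicit false

namespace Pool.Agent.CM

open Finset

/-- The number of sign patterns with vanishing weighted sum. -/
theorem count_signs {X : Type} [DecidableEq X] (Y : Finset X) {I : Type} [Fintype I]
    [DecidableEq I] (C : I → Finset X) (hCY : ∀ i, C i ⊆ Y)
    (hdisj : ∀ i j, i ≠ j → Disjoint (C i) (C j)) (h : ℕ) (hcard : ∀ i, (C i).card = h)
    (u : X → ℂ) (val : I → ℂ) (hval : ∀ i, ∀ x ∈ C i, u x = val i)
    (hli : LinearIndependent ℚ val) :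
    (Y.powerset.filter fun S => ∑ x ∈ S, u x - ∑ x ∈ Y \ S, u x = 0).card *
      (2 ^ h) ^ (Fintype.card I) ≤ (h.choose (h / 2)) ^ (Fintype.card I) * 2 ^ Y.card := by
  classical
  set U : Finset X := Finset.univ.biUnion C with hU
  have hUY : U ⊆ Y := by
    intro x hx
    rw [hU, mem_biUnion] at hx
    obtain ⟨i, _, hi⟩ := hx
    exact hCY i hi
  have hUcard : U.card = h * Fintype.card I := by
    rw [hU, card_biUnion (fun i _ j _ hij => hdisj i j hij)]
    simp only [hcard, sum_const, card_univ, smul_eq_mul]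
    ring
  set B := Y.powerset.filter fun S => ∑ x ∈ S, u x - ∑ x ∈ Y \ S, u x = 0 with hB
  have hsum : ∀ S ∈ B, 2 * ∑ x ∈ S, u x = ∑ x ∈ Y, u x := by
    intro S hS
    rw [hB, mem_filter, mem_powerset] at hS
    have := sum_sdiff hS.1 (f := u)
    linear_combination hS.2 + this
  have hsplit : ∀ S : Finset X, ∑ x ∈ S, u x
      = ∑ x ∈ S \ U, u x + ∑ i, ((S ∩ C i).card : ℂ) * val i := by
    intro S
    have h1 : ∑ x ∈ S, u x = ∑ x ∈ S \ U, u x + ∑ x ∈ S ∩ U, u x := by
      rw [← sum_sdiff (s₁ := S ∩ U) (s₂ := S) inter_subset_left]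
      congr 1
      rw [sdiff_inter_self_left]
    rw [h1]
    congr 1
    have h2 : S ∩ U = Finset.univ.biUnion fun i => S ∩ C i := by
      rw [hU, inter_biUnion]
    rw [h2, sum_biUnion]
    · refine sum_congr rfl fun i _ => ?_
      rw [sum_congr rfl (fun x hx => hval i x (mem_inter.1 hx).2), sum_const, nsmul_eq_mul]
    · intro i _ j _ hij
      exact (hdisj i j hij).mono inter_subset_right inter_subset_right
  have hfib : ∀ R ∈ (Y \ U).powerset, (B.filter fun S => S \ U = R).card
      ≤ (h.choose (h / 2)) ^ (Fintype.card I) := by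
    intro R _
    rcases (B.filter fun S => S \ U = R).eq_empty_or_nonempty with he | ⟨S0, hS0⟩
    · rw [he]; simp
    have hS0B := (mem_filter.1 hS0).1
    have hS0R := (mem_filter.1 hS0).2
    have hsz : ∀ S ∈ B.filter (fun S => S \ U = R), ∀ i, (S ∩ C i).card = (S0 ∩ C i).card := by
      intro S hS
      have hSB := (mem_filter.1 hS).1
      have hSR := (mem_filter.1 hS).2
      have h1 := hsum S hSB
      have h2 := hsum S0 hS0B
      rw [hsplit, hSR] at h1
      rw [hsplit, hS0R] at h2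
      have h3 : ∑ i, (((S ∩ C i).card : ℚ) - (S0 ∩ C i).card) • val i = 0 := by
        have h4 : ∀ i, (((S ∩ C i).card : ℚ) - (S0 ∩ C i).card) • val i
            = ((S ∩ C i).card : ℂ) * val i - ((S0 ∩ C i).card : ℂ) * val i := by
          intro i
          rw [Rat.smul_def]
          push_cast
          ring
        simp only [h4, sum_sub_distrib]
        linear_combination (1 / 2 : ℂ) * h1 - (1 / 2 : ℂ) * h2
      have h5 := Fintype.linearIndependent_iff.1 hli _ h3
      intro i
      have := h5 i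
      rw [sub_eq_zero] at this
      exact_mod_cast this
    have hle : (B.filter fun S => S \ U = R).card
        ≤ (Fintype.piFinset fun i => powersetCard (S0 ∩ C i).card (C i)).card := by
      refine card_le_card_of_injOn (fun S i => S ∩ C i) ?_ ?_
      · intro S hS
        rw [mem_coe, Fintype.mem_piFinset]
        intro i
        rw [mem_powersetCard]
        exact ⟨inter_subset_right, hsz S hS i⟩
      · intro S hS S' hS' heq
        have h1 : S \ U = S' \ U := by
          rw [(mem_filter.1 hS).2, (mem_filter.1 hS').2]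
        have h2 : S ∩ U = S' ∩ U := by
          rw [hU, inter_biUnion, inter_biUnion]
          refine biUnion_congr rfl fun i _ => ?_
          exact congrFun heq i
        rw [← sdiff_union_inter S U, ← sdiff_union_inter S' U, h1, h2]
    refine hle.trans ?_
    rw [Fintype.card_piFinset]
    refine (prod_le_prod' (fun i _ => ?_)).trans (by rw [prod_const, card_univ])
    rw [card_powersetCard, hcard]
    exact Nat.choose_le_middle _ _
  have hmain := card_le_mul_card_image_of_maps_to (s := B) (t := (Y \ U).powerset)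
    (f := fun S => S \ U) (fun S hS => by
      rw [mem_powerset]
      exact sdiff_subset_sdiff (mem_powerset.1 (mem_filter.1 hS).1) le_rfl) _ hfib
  rw [card_powerset, card_sdiff_of_subset hUY, hUcard] at hmain
  have hle : h * Fintype.card I ≤ Y.card := by
    rw [← hUcard]; exact card_le_card hUY
  calc B.card * (2 ^ h) ^ (Fintype.card I)
      ≤ ((h.choose (h / 2)) ^ (Fintype.card I) * 2 ^ (Y.card - h * Fintype.card I)) *
        (2 ^ h) ^ (Fintype.card I) := Nat.mul_le_mul_right _ hmain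
    _ = (h.choose (h / 2)) ^ (Fintype.card I) *
        (2 ^ (Y.card - h * Fintype.card I) * 2 ^ (h * Fintype.card I)) := by
        rw [← pow_mul]; ring
    _ = _ := by rw [← pow_add, Nat.sub_add_cancel hle]

theorem centralBinom_sq_le (n : ℕ) : n.centralBinom ^ 2 * (2 * n + 1) ≤ 16 ^ n := by
  induction n with
  | zero => simp
  | succ n ih =>
    have h1 := Nat.succ_mul_centralBinom_succ n
    have h2 : (n + 1) ^ 2 * ((n + 1).centralBinom ^ 2 * (2 * (n + 1) + 1))
        ≤ (n + 1) ^ 2 * 16 ^ (n + 1) := by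
      calc (n + 1) ^ 2 * ((n + 1).centralBinom ^ 2 * (2 * (n + 1) + 1))
          = ((n + 1) * (n + 1).centralBinom) ^ 2 * (2 * n + 3) := by ring
        _ = (2 * (2 * n + 1) * n.centralBinom) ^ 2 * (2 * n + 3) := by rw [h1]
        _ = (n.centralBinom ^ 2 * (2 * n + 1)) * (4 * ((2 * n + 1) * (2 * n + 3))) := by ring
        _ ≤ 16 ^ n * (4 * (4 * (n + 1) ^ 2)) := by
            refine Nat.mul_le_mul ih (Nat.mul_le_mul_left _ ?_)
            nlinarith
        _ = (n + 1) ^ 2 * 16 ^ (n + 1) := by ring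
    exact Nat.le_of_mul_le_mul_left h2 (by positivity)

theorem middle_sq_le (h : ℕ) : (h.choose (h / 2)) ^ 2 * (h + 1) ≤ 4 ^ h := by
  rcases Nat.even_or_odd' h with ⟨n, rfl | rfl⟩
  · have := centralBinom_sq_le n
    rw [Nat.centralBinom_eq_two_mul_choose] at this
    have e : 2 * n / 2 = n := by omega
    rw [e, pow_mul]
    exact this
  · have h1 := centralBinom_sq_le (n + 1)
    have e : (2 * n + 1) / 2 = n := by omega
    rw [e]
    have h2 : (n + 1).centralBinom = 2 * (2 * n + 1).choose n := by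
      rw [Nat.centralBinom_eq_two_mul_choose]
      have e2 : 2 * (n + 1) = (2 * n + 1) + 1 := by ring
      rw [e2, Nat.choose_succ_succ]
      have e3 : (2 * n + 1).choose (n + 1) = (2 * n + 1).choose n := by
        apply Nat.choose_symm_of_eq_add
        ring
      rw [e3]
      ring
    rw [h2] at h1
    have h3 : 4 * (((2 * n + 1).choose n) ^ 2 * (2 * n + 1 + 1)) ≤ 4 * 4 ^ (2 * n + 1) := by
      calc 4 * (((2 * n + 1).choose n) ^ 2 * (2 * n + 1 + 1))
          ≤ (2 * (2 * n + 1).choose n) ^ 2 * (2 * (n + 1) + 1) := by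
            have : (2 * (2 * n + 1).choose n) ^ 2 * (2 * (n + 1) + 1)
              = 4 * (((2 * n + 1).choose n) ^ 2 * (2 * n + 1 + 1)) + 4 * ((2 * n + 1).choose n) ^ 2
                := by ring
            omega
        _ ≤ 16 ^ (n + 1) := h1
        _ = 4 * 4 ^ (2 * n + 1) := by
            rw [show (16 : ℕ) = 4 ^ 2 by norm_num, ← pow_mul, ← pow_succ']
            congr 1
    exact Nat.le_of_mul_le_mul_left h3 (by norm_num)

theorem le_two_totient_sq (n : ℕ) (hn : 0 < n) :
    n ≤ 2 * n.totient ^ 2 ∧ (¬ 2 ∣ n → n ≤ n.totient ^ 2) := by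
  induction n using Nat.recOnPosPrimePosCoprime with
  | prime_pow p k hp hk =>
    rw [Nat.totient_prime_pow hp hk]
    have hk1 : p ^ (k - 1) * p = p ^ k := by
      rw [← pow_succ]; congr 1; omega
    have hle : p ^ k ≤ p ^ (k - 1) * p ^ k := by
      exact Nat.le_mul_of_pos_left _ (pow_pos hp.pos _)
    have hodd : ¬ 2 ∣ p ^ k → p ^ k ≤ (p ^ (k - 1) * (p - 1)) ^ 2 := by
      intro h2
      have hp2 : p ≠ 2 := by
        rintro rfl
        exact h2 (dvd_pow_self 2 hk.ne')
      have hp3 : 3 ≤ p := by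
        have := hp.two_le
        omega
      obtain ⟨r, rfl⟩ : ∃ r, p = r + 3 := ⟨p - 3, by omega⟩
      have e : r + 3 - 1 = r + 2 := by omega
      rw [e]
      calc (r + 3) ^ k ≤ (r + 3) ^ (k - 1) * (r + 3) ^ k := hle
        _ = ((r + 3) ^ (k - 1)) ^ 2 * (r + 3) := by rw [← hk1]; ring
        _ ≤ ((r + 3) ^ (k - 1)) ^ 2 * (r + 2) ^ 2 := Nat.mul_le_mul_left _ (by nlinarith)
        _ = _ := by ring
    refine ⟨?_, hodd⟩
    by_cases h2 : 2 ∣ p ^ k
    · have hp2 : p = 2 := ((Nat.prime_dvd_prime_iff_eq Nat.prime_two hp).1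
        (Nat.prime_two.dvd_of_dvd_pow h2)).symm
      subst hp2
      have e : (2 : ℕ) - 1 = 1 := rfl
      rw [e, mul_one]
      calc 2 ^ k ≤ 2 ^ (k - 1) * 2 ^ k := hle
        _ = 2 * (2 ^ (k - 1)) ^ 2 := by rw [← hk1]; ring
    · exact (hodd h2).trans (Nat.le_mul_of_pos_left _ (by norm_num))
  | zero => omega
  | one => simp
  | coprime a b ha hb hab iha ihb =>
    rw [Nat.totient_mul hab]
    obtain ⟨a1, a2⟩ := iha (by omega)
    obtain ⟨b1, b2⟩ := ihb (by omega)
    constructor
    · by_cases h2 : 2 ∣ a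
      · have h3 : ¬ 2 ∣ b := by
          intro h3
          have := Nat.dvd_gcd h2 h3
          rw [hab] at this
          omega
        calc a * b ≤ (2 * a.totient ^ 2) * (b.totient ^ 2) := Nat.mul_le_mul a1 (b2 h3)
          _ = _ := by ring
      · calc a * b ≤ (a.totient ^ 2) * (2 * b.totient ^ 2) := Nat.mul_le_mul (a2 h2) b1
          _ = _ := by ring
    · intro h2
      have h3 : ¬ 2 ∣ a := fun h => h2 (Dvd.dvd.mul_right h b)
      have h4 : ¬ 2 ∣ b := fun h => h2 (Dvd.dvd.mul_left h a)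
      calc a * b ≤ (a.totient ^ 2) * (b.totient ^ 2) := Nat.mul_le_mul (a2 h3) (b2 h4)
        _ = _ := by ring

/-- the arithmetic inequality behind the union bound -/
theorem arith_ineq (g d h : ℕ) (hdh : d * h = 2 * g) (hh : 0 < h) (hd : 0 < d)
    (hφ : 4 ≤ d.totient) : g ^ 3 ≤ 46656 * (h + 1) ^ d.totient := by
  obtain ⟨h1, _⟩ := le_two_totient_sq d hd
  set f := d.totient with hf
  have h2 : g ≤ f ^ 2 * h := by
    have : 2 * g ≤ 2 * (f ^ 2 * h) := by
      rw [← hdh, ← mul_assoc]
      exact Nat.mul_le_mul_right _ h1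
    omega
  have h3 : g ^ 3 ≤ (f ^ 2 * h) ^ 3 := Nat.pow_le_pow_left h2 3
  have h4 : (f ^ 2 * h) ^ 3 = f ^ 6 * h ^ 3 := by ring
  rw [h4] at h3
  refine h3.trans ?_
  by_cases h5 : f < 6
  · have h6 : f ^ 6 ≤ 46656 := by
      calc f ^ 6 ≤ 6 ^ 6 := Nat.pow_le_pow_left h5.le 6
        _ = 46656 := by norm_num
    refine Nat.mul_le_mul h6 ?_
    calc h ^ 3 ≤ (h + 1) ^ 3 := Nat.pow_le_pow_left (by omega) 3
      _ ≤ (h + 1) ^ f := Nat.pow_le_pow_right (by omega) (by omega)
  · have h6 : f ^ 6 ≤ 46656 * f.choose 6 := by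
      obtain ⟨r, hr⟩ : ∃ r, f = r + 6 := ⟨f - 6, by omega⟩
      rw [hr]
      have e1 : (r + 6).descFactorial 6
          = (r + 1) * ((r + 2) * ((r + 3) * ((r + 4) * ((r + 5) * ((r + 6) * 1))))) := rfl
      rw [Nat.descFactorial_eq_factorial_mul_choose] at e1
      have e2 : (6 : ℕ).factorial = 720 := rfl
      rw [e2] at e1
      have e3 : 324 * (720 * (r + 6).choose 6) = 5 * (r + 6) ^ 6 +
          (r + 6) * (319 * r ^ 5 + 4710 * r ^ 4 + 25740 * r ^ 3 + 62100 * r ^ 2 + 56376 * r) := by
        rw [e1]; ring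
      omega
    have h7 : f.choose 6 * h ^ 6 ≤ (h + 1) ^ f := by
      rw [add_pow]
      calc f.choose 6 * h ^ 6 = h ^ 6 * 1 ^ (f - 6) * (f.choose 6 : ℕ) := by ring
        _ ≤ _ := by
          refine Finset.single_le_sum (f := fun m => h ^ m * 1 ^ (f - m) * (f.choose m))
            (fun _ _ => Nat.zero_le _) ?_
          rw [Finset.mem_range]
          omega
    calc f ^ 6 * h ^ 3 ≤ (46656 * f.choose 6) * h ^ 6 :=
          Nat.mul_le_mul h6 (Nat.pow_le_pow_right hh (by norm_num))
      _ = 46656 * (f.choose 6 * h ^ 6) := by ring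
      _ ≤ _ := Nat.mul_le_mul_left _ h7

end Pool.Agent.CM
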