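import Mathlib

set_option autoImplicit false

/-!
Group level versions of CM types and nondegeneracy: `c` is a central involution of the finite
group `G`.
-/

namespace Pool.Agent.CM

/-- `Φ` is a CM type of `(G, c)` -/
def GCM {G : Type} [Group G] (c : G) (Φ : Finset G) : Prop := ∀ g, g ∈ Φ ↔ c * g ∉ Φ

/-- `Φ` is nondegenerate -/
def GND {G : Type} [Group G] (c : G) (Φ : Finset G) : Prop :=
  ∀ n : G → ℤ, (∀ τ, ∑ g ∈ Φ, n (τ * g) = ∑ g ∈ Φ, n (τ * (c * g))) → ∀ g, n (c * g) = n g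

end Pool.Agent.CM
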