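import Pool.Agent.Lib_helper86.CM.Chars
import Pool.Agent.Lib_helper86.CM.Count

set_option autoImplicit false
set_option linter.unusedSectionVars false

namespace Pool.Agent.CM

open Finset

variable {G : Type} [CommGroup G] [Fintype G] [DecidableEq G]

theorem totient_le_half {d : ℕ} (hd : 2 ∣ d) : d.totient ≤ d / 2 := by
  rw [Nat.totient_eq_card_coprime, ← card_range (d / 2)]
  refine card_le_card_of_injOn (fun a => a / 2) ?_ ?_
  · intro a ha
    rw [mem_coe, mem_filter, mem_range] at ha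
    rw [mem_coe, mem_range]
    have h1 : ¬ 2 ∣ a := by
      intro h
      have := Nat.dvd_gcd hd h
      rw [ha.2] at this
      omega
    change a / 2 < d / 2
    omega
  · intro a ha b hb hab
    rw [mem_coe, mem_filter, mem_range] at ha hb
    have h1 : ∀ a, d.Coprime a → a % 2 = 1 := by
      intro a ha
      by_contra h
      have := Nat.dvd_gcd hd (Nat.dvd_of_mod_eq_zero (by omega : a % 2 = 0))
      rw [ha] at this
      omega
    have h2 := h1 a ha.2
    have h3 := h1 b hb.2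
    simp only at hab
    omega

theorem gcm_card {c : G} {Φ : Finset G} (h : GCM c Φ) (hc : c * c = 1) :
    2 * Φ.card = Fintype.card G := by
  have h1 : (Φᶜ).card = Φ.card := by
    symm
    refine card_bij (fun g _ => c * g) ?_ ?_ ?_
    · intro g hg
      rw [mem_compl]
      exact (h g).1 hg
    · intro a _ b _ hab
      exact mul_left_cancel hab
    · intro g hg
      rw [mem_compl] at hg
      refine ⟨c * g, ?_, by rw [← mul_assoc, hc, one_mul]⟩
      by_contra h'
      exact hg ((h g).2 h')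
  have h2 := card_add_card_compl Φ
  omega

theorem half_sum {c : G} (hc : c * c = 1) {Y : Finset G} (hY : GCM c Y) {Φ : Finset G}
    (hΦ : GCM c Φ) (χ : G →* ℂˣ) (hχ : χ c = -1) :
    ∑ g ∈ Φ, ((χ g : ℂˣ) : ℂ)
      = ∑ x ∈ Φ ∩ Y, ((χ x : ℂˣ) : ℂ) - ∑ x ∈ Y \ (Φ ∩ Y), ((χ x : ℂˣ) : ℂ) := by
  rw [← sum_sdiff (s₁ := Φ ∩ Y) (s₂ := Φ) inter_subset_left, add_comm, sub_eq_add_neg,
    ← sum_neg_distrib]
  congr 1
  refine sum_bij' (fun g _ => c * g) (fun g _ => c * g) ?_ ?_ ?_ ?_ ?_
  · intro g hg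
    simp only [mem_sdiff, mem_inter] at hg ⊢
    have h1 := (hΦ g).1 hg.1
    have h2 : g ∉ Y := fun h => hg.2 ⟨hg.1, h⟩
    refine ⟨?_, fun h => h1 h.1⟩
    by_contra h'
    exact h2 ((hY g).2 h')
  · intro g hg
    simp only [mem_sdiff, mem_inter] at hg ⊢
    have h1 := (hY g).1 hg.1
    refine ⟨?_, fun h => h1 h.2⟩
    by_contra h'
    exact hg.2 ⟨(hΦ g).2 h', hg.1⟩
  · intro g _
    rw [← mul_assoc, hc, one_mul]
  · intro g _
    rw [← mul_assoc, hc, one_mul]
  · intro g _
    rw [map_mul, hχ]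
    simp

theorem inter_injOn {c : G} {Y : Finset G} (hY : GCM c Y) {Φ Φ' : Finset G}
    (hΦ : GCM c Φ) (hΦ' : GCM c Φ') (h : Φ ∩ Y = Φ' ∩ Y) : Φ = Φ' := by
  have h1 : ∀ g ∈ Y, g ∈ Φ ↔ g ∈ Φ' := by
    intro g hg
    have := congrArg (fun S => g ∈ S) h
    simp only [mem_inter, hg, and_true] at this
    exact this.to_iff
  ext g
  by_cases hg : g ∈ Y
  · exact h1 g hg
  · have h2 : c * g ∈ Y := by
      by_contra h'
      exact hg ((hY g).2 h')
    rw [hΦ g, hΦ' g, h1 _ h2]

/-- the CM types with `∑_{Φ} χ = 0` -/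
noncomputable def bad (c : G) (χ : G →* ℂˣ) : Finset (Finset G) :=
  open scoped Classical in
  Finset.univ.filter fun Φ => GCM c Φ ∧ ∑ g ∈ Φ, ((χ g : ℂˣ) : ℂ) = 0

theorem bad_count (c : G) (hc : c * c = 1) (χ : G →* ℂˣ) (hχ : χ c = -1) :
    ∃ d h : ℕ, d * h = Fintype.card G ∧ 0 < d ∧ 0 < h ∧ (∀ g, χ g ^ d = 1) ∧
      ∀ k ≤ d.totient, (bad c χ).card * (2 ^ h) ^ k
        ≤ (h.choose (h / 2)) ^ k * 2 ^ (Fintype.card G / 2) := by
  classical
  obtain ⟨⟨z, g0, hg0⟩, hz⟩ := IsCyclic.exists_generator (α := χ.range)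
  have hgen : ∀ g, ∃ j : ℤ, χ g = z ^ j := by
    intro g
    obtain ⟨j, hj⟩ := Subgroup.mem_zpowers_iff.1 (hz ⟨χ g, g, rfl⟩)
    refine ⟨j, ?_⟩
    have := congrArg Subtype.val hj
    simpa using this.symm
  set d := orderOf z with hd
  have hzf : IsOfFinOrder z := by
    rw [← hg0]
    exact χ.isOfFinOrder (isOfFinOrder_of_finite g0)
  have hd0 : 0 < d := hzf.orderOf_pos
  have hprimU : IsPrimitiveRoot z d := IsPrimitiveRoot.orderOf z
  set ζ : ℂ := (z : ℂ) with hζ
  have hprim : IsPrimitiveRoot ζ d := hprimU.map_of_injective (f := Units.coeHom ℂ) Units.val_injective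
  have hgen' : ∀ g, ∃ j < d, χ g = z ^ j := by
    intro g
    obtain ⟨j, hj⟩ := hgen g
    refine ⟨(j % d).toNat, ?_, ?_⟩
    · have h1 := Int.emod_lt_of_pos j (by exact_mod_cast hd0 : (0 : ℤ) < d)
      have h2 := Int.emod_nonneg j (by exact_mod_cast hd0.ne' : (d : ℤ) ≠ 0)
      omega
    · rw [hj, ← zpow_natCast, Int.toNat_of_nonneg
        (Int.emod_nonneg j (by exact_mod_cast hd0.ne' : (d : ℤ) ≠ 0)), hd, zpow_mod_orderOf]
  have hinj : ∀ i j, i < d → j < d → z ^ i = z ^ j → i = j := fun i j hi hj h =>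
    hprimU.pow_inj hi hj h
  -- `d` is even and `z ^ (d / 2) = -1`
  have hneg1 : (-1 : ℂˣ) ≠ 1 := by
    intro h
    have := congrArg (fun u : ℂˣ => (u : ℂ)) h
    norm_num at this
  obtain ⟨e, he, hce⟩ := hgen' c
  rw [hχ] at hce
  have he0 : e ≠ 0 := by
    rintro rfl
    rw [pow_zero] at hce
    exact hneg1 hce
  have hde : d = 2 * e := by
    have h1 : z ^ (2 * e) = 1 := by
      rw [mul_comm, pow_mul, ← hce]; simp
    have h2 : d ∣ 2 * e := orderOf_dvd_of_pow_eq_one h1
    obtain ⟨r, hr⟩ := h2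
    have h3 : r < 2 := by
      by_contra h
      push Not at h
      have := Nat.mul_le_mul_left d h
      omega
    interval_cases r
    · omega
    · omega
  -- the half system
  set Y : Finset G := Finset.univ.filter fun g => ∃ j < e, χ g = z ^ j with hY
  have hYmem : ∀ g, g ∈ Y ↔ ∃ j < e, χ g = z ^ j := by
    intro g; rw [hY, mem_filter]; simp
  have hYG : GCM c Y := by
    intro g
    rw [hYmem, hYmem]
    obtain ⟨j, hj, hgj⟩ := hgen' g
    constructor
    · rintro ⟨i, hi, hgi⟩ ⟨i', hi', hgi'⟩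
      rw [map_mul, hχ, hce, hgi, ← pow_add] at hgi'
      have := hinj (e + i) i' (by omega) (by omega) hgi'
      omega
    · intro h
      by_contra h'
      push Not at h h'
      have hj' : e ≤ j := by
        by_contra hlt
        exact h' j (by omega) hgj
      apply h (j - e) (by omega)
      rw [map_mul, hχ, hce, hgj, ← pow_add]
      have : e + j = d + (j - e) := by omega
      rw [this, pow_add, hd, pow_orderOf_eq_one, one_mul]
  set h := Nat.card χ.ker with hh
  have hcardG : d * h = Fintype.card G := by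
    have h1 := Subgroup.card_mul_index χ.ker
    rw [Subgroup.index_ker, Nat.card_eq_fintype_card (α := G)] at h1
    have h2 : Nat.card χ.range = d := by
      rw [hd, ← Nat.card_zpowers]
      have h3 : χ.range = Subgroup.zpowers z := by
        ext x
        constructor
        · rintro ⟨g, rfl⟩
          obtain ⟨j, hj⟩ := hgen g
          exact ⟨j, hj.symm⟩
        · rintro ⟨j, rfl⟩
          exact ⟨g0 ^ j, by rw [map_zpow, hg0]⟩
      rw [h3]
    rw [h2] at h1
    rw [mul_comm]
    exact h1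
  have hh0 : 0 < h := Nat.card_pos
  refine ⟨d, h, hcardG, hd0, hh0, ?_, ?_⟩
  · intro g
    obtain ⟨j, _, hj⟩ := hgen' g
    rw [hj, ← pow_mul, mul_comm, pow_mul, hd, pow_orderOf_eq_one, one_pow]
  intro k hk
  have hke : k ≤ e := by
    have := totient_le_half (d := d) ⟨e, hde⟩
    omega
  let C : Fin k → Finset G := fun i => Finset.univ.filter fun g => χ g = z ^ (i : ℕ)
  have hCcard : ∀ i, (C i).card = h := by
    intro i
    rw [hh, Nat.card_eq_fintype_card, ← Fintype.card_coe]
    symm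
    refine Fintype.card_congr ⟨fun x => ⟨g0 ^ (i : ℕ) * x.1, ?_⟩, fun x => ⟨(g0 ^ (i : ℕ))⁻¹ * x.1, ?_⟩,
      fun x => ?_, fun x => ?_⟩
    · rw [mem_filter]
      refine ⟨mem_univ _, ?_⟩
      rw [map_mul, map_pow, hg0, (MonoidHom.mem_ker).1 x.2, mul_one]
    · rw [MonoidHom.mem_ker, map_mul, map_inv, map_pow, hg0, (mem_filter.1 x.2).2]
      simp
    · apply Subtype.ext
      simp
    · apply Subtype.ext
      simp
  have hcs := count_signs Y C (fun i g hg => by
      rw [hYmem]
      exact ⟨i, by have := i.2; omega, (mem_filter.1 hg).2⟩)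
    (fun i j hij => by
      rw [disjoint_left]
      intro g hg hg'
      have h1 := (mem_filter.1 hg).2
      have h2 := (mem_filter.1 hg').2
      apply hij
      apply Fin.ext
      exact hinj i j (by have := i.2; omega) (by have := j.2; omega) (h1.symm.trans h2))
    h hCcard (fun g => ((χ g : ℂˣ) : ℂ)) (fun i : Fin k => ζ ^ (i : ℕ))
    (fun i g hg => by
      rw [(mem_filter.1 hg).2, hζ]
      simp)
    (by
      have h1 := linearIndependent_pow (K := ℚ) ζ
      have h2 : (minpoly ℚ ζ).natDegree = d.totient := by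
        rw [← Polynomial.cyclotomic_eq_minpoly_rat hprim hd0, Polynomial.natDegree_cyclotomic]
      have h3 : k ≤ (minpoly ℚ ζ).natDegree := by rw [h2]; exact hk
      exact h1.comp (Fin.castLE h3) (Fin.castLE_injective h3))
  rw [Fintype.card_fin] at hcs
  have hYc : Y.card = Fintype.card G / 2 := by
    have := gcm_card hYG hc
    omega
  rw [hYc] at hcs
  refine le_trans (Nat.mul_le_mul_right _ ?_) hcs
  refine card_le_card_of_injOn (fun Φ => Φ ∩ Y) ?_ ?_
  · intro Φ hΦ
    unfold bad at hΦ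
    rw [mem_coe, mem_filter] at hΦ ⊢
    refine ⟨mem_powerset.2 inter_subset_right, ?_⟩
    rw [← half_sum hc hYG hΦ.2.1 χ hχ]
    exact hΦ.2.2
  · intro Φ hΦ Φ' hΦ' heq
    unfold bad at hΦ hΦ'
    rw [mem_coe, mem_filter] at hΦ hΦ'
    exact inter_injOn hYG hΦ.2.1 hΦ'.2.1 heq

end Pool.Agent.CM
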